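import Pool.Agent.Helper95.HS.Stmts
import Pool.Agent.Helper96.LN.NB

/-!
# Row NBX: few electrons near each nucleus, with the powers of the distance
-/

set_option autoImplicit false

namespace Pool.Agent.Helper96.HS

open MeasureTheory Filter Pool.Agent.Helper95.PW Pool.Agent.Helper95.LN Pool.Agent.Helper95.HS
open Pool.Agent.Helper96.LN

theorem nbx_F (d : ℝ) (hd : 0 < d) (y : R3) : nbF d y = nbF 1 (d⁻¹ • y) := by
  unfold nbF nbq
  congr 1
  simp only [Pi.smul_apply, smul_eq_mul]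
  field_simp

theorem nbx_pd (d : ℝ) (hd : 0 < d) (m : Fin 3) (y : R3) :
    pd m (nbF d) y = d⁻¹ * pd m (nbF 1) (d⁻¹ • y) := by
  have e : nbF d = fun y => nbF 1 (d⁻¹ • y) := by
    funext y
    exact nbx_F d hd y
  have h1 : HasFDerivAt (nbF 1) (fderiv ℝ (nbF 1) (d⁻¹ • y)) (d⁻¹ • y) :=
    ((nbF_smooth 1).differentiable (by simp) _).hasFDerivAt
  have h2 : HasFDerivAt (fun y : R3 => d⁻¹ • y) (d⁻¹ • ContinuousLinearMap.id ℝ R3) y :=
    (hasFDerivAt_id y).const_smul d⁻¹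
  have h3 := h1.comp y h2
  unfold pd
  rw [e]
  have h4 : fderiv ℝ (fun y => nbF 1 (d⁻¹ • y)) y =
      (fderiv ℝ (nbF 1) (d⁻¹ • y)).comp (d⁻¹ • ContinuousLinearMap.id ℝ R3) := h3.fderiv
  rw [h4]
  simp

theorem nbx_J (d : ℝ) (hd : 0 < d) : nbJ d = d * nbJ 1 := by
  unfold nbJ
  have e : (fun w => ∑ m, pd m (nbF d) w ^ 2) =
      fun w => d⁻¹ ^ 2 * (fun v : R3 => ∑ m, pd m (nbF 1) v ^ 2) (d⁻¹ • w) := by
    funext w
    simp only [nbx_pd d hd, mul_pow]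
    rw [Finset.mul_sum]
  have e2 := Measure.integral_comp_smul (volume : Measure R3)
    (fun v : R3 => ∑ m, pd m (nbF 1) v ^ 2) d⁻¹
  have hf : Module.finrank ℝ R3 = 3 := by simp
  rw [hf, smul_eq_mul, abs_of_pos (by positivity)] at e2
  rw [e, integral_const_mul, e2]
  field_simp

theorem NBX (hG : ST_GRD) (hA : ST_PHA) (_hB : ST_PHB) (hC : ST_PHC) (hD : ST_DEX) : ST_NBX := by
  have hkap : 0 < kap := hC.2.1
  have hJ1 := nbJ_nonneg 1
  refine ⟨2 + 2 * nbJ 1 / kap, by positivity, ?_⟩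
  intro d n M X Z x hd1 hX hZ1
  have hd : 0 < d := by linarith
  have hZ : ∀ j, 0 ≤ Z j := fun j => by rw [hZ1 j]; norm_num
  have hJ := nbJ_nonneg d
  have hint0 : 0 ≤ ∫ w, ∑ m, pd m (Pt (d / 8) X Z x) w ^ 2 :=
    integral_nonneg fun w => Finset.sum_nonneg fun m _ => sq_nonneg _
  have hone : ∀ i, kap ^ 2 * cnt X (3 / 2 * d) x i ^ 2 ≤ 2 * kap ^ 2 + 2 * (nbJ d *
      ∫ w in {w | nr (w - X i) < 2 * d}, ∑ m, pd m (Pt (d / 8) X Z x) w ^ 2) := by
    intro i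
    have h1 := nb_one hG hA hC d hd X Z x hX hZ i
    have h2 := nb_cs hA hD d hd X Z x i
    have hc : 0 ≤ cnt X (3 / 2 * d) x i := by
      unfold cnt
      apply Finset.sum_nonneg
      intro k _
      split_ifs <;> norm_num
    have h3 : 0 ≤ kap * cnt X (3 / 2 * d) x i := mul_nonneg hkap.le hc
    rw [hZ1 i, one_mul] at h1
    have h5 := mul_self_le_mul_self h3 h1
    nlinarith [sq_nonneg (kap -
      ∫ w, ∑ m, pd m (Pt (d / 8) X Z x) w * pd m (nbT d (X i)) w)]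
  have hsum : kap ^ 2 * ∑ i, cnt X (3 / 2 * d) x i ^ 2 ≤
      2 * kap ^ 2 * M + 2 * (nbJ d *
        ∫ w, ∑ m, pd m (Pt (d / 8) X Z x) w ^ 2) := by
    rw [Finset.mul_sum]
    refine (Finset.sum_le_sum fun i _ => hone i).trans ?_
    rw [Finset.sum_add_distrib, ← Finset.mul_sum, ← Finset.mul_sum]
    have h6 := mul_le_mul_of_nonneg_left (nb_balls hD d hd X Z x hX) hJ
    rw [Finset.mul_sum] at h6
    simp only [Finset.sum_const, Finset.card_univ, Fintype.card_fin, nsmul_eq_mul]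
    nlinarith
  have hDn : ∫ w, ∑ m, pd m (Pt (d / 8) X Z x) w ^ 2 = kap * Dn (d / 8) X Z x := by
    unfold Dn
    field_simp
  have hDn0 : 0 ≤ Dn (d / 8) X Z x := by
    unfold Dn
    positivity
  rw [hDn, nbx_J d hd] at hsum
  have h7 : ∑ i, cnt X (3 / 2 * d) x i ^ 2 ≤
      2 * M + 2 * nbJ 1 / kap * (d * Dn (d / 8) X Z x) := by
    have h8 : kap ^ 2 * (2 * M + 2 * nbJ 1 / kap * (d * Dn (d / 8) X Z x)) =
        2 * kap ^ 2 * M + 2 * (d * nbJ 1 * (kap * Dn (d / 8) X Z x)) := by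
      field_simp
    have h9 : 0 < kap ^ 2 := by positivity
    apply le_of_mul_le_mul_left _ h9
    rw [h8]
    exact hsum
  have h10 : 0 ≤ 2 * nbJ 1 / kap := by positivity
  have h11 : (0 : ℝ) ≤ M := Nat.cast_nonneg M
  have h12 := mul_nonneg h10 h11
  have h13 : 0 ≤ d * Dn (d / 8) X Z x := mul_nonneg hd.le hDn0
  nlinarith

end Pool.Agent.Helper96.HS
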